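import Mathlib

/-!
Expectation over a `p`-random subset of a finite set (generic type).
-/

open Finset

set_option linter.unusedSectionVars false

namespace Pool.Agent.H77BP

variable {α : Type*} [DecidableEq α]

/-- expectation of `f A`, where `A` is a `p`-random subset of the finite set `X`. -/
noncomputable def Ex (p : ℝ) (X : Finset α) (f : Finset α → ℝ) : ℝ :=
  ∑ A ∈ X.powerset, p ^ A.card * (1 - p) ^ (X.card - A.card) * f A

theorem Ex_empty (p : ℝ) (f : Finset α → ℝ) : Ex p ∅ f = f ∅ := by
  simp [Ex]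

theorem Ex_insert (p : ℝ) {a : α} {X : Finset α} (ha : a ∉ X) (f : Finset α → ℝ) :
    Ex p (insert a X) f = (1 - p) * Ex p X f + p * Ex p X (fun A => f (insert a A)) := by
  unfold Ex
  rw [Finset.sum_powerset_insert ha, Finset.mul_sum, Finset.mul_sum]
  congr 1
  · apply Finset.sum_congr rfl
    intro A hA
    have hA' := Finset.card_le_card (Finset.mem_powerset.mp hA)
    rw [Finset.card_insert_of_notMem ha]
    have : X.card + 1 - A.card = (X.card - A.card) + 1 := by omega
    rw [this, pow_succ]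
    ring
  · apply Finset.sum_congr rfl
    intro A hA
    have haA : a ∉ A := fun h => ha (Finset.mem_powerset.mp hA h)
    rw [Finset.card_insert_of_notMem ha, Finset.card_insert_of_notMem haA]
    have : X.card + 1 - (A.card + 1) = X.card - A.card := by omega
    rw [this, pow_succ]
    ring

theorem Ex_congr {p : ℝ} {X : Finset α} {f g : Finset α → ℝ} (h : ∀ A ⊆ X, f A = g A) :
    Ex p X f = Ex p X g := by
  unfold Ex
  apply Finset.sum_congr rfl
  intro A hA
  rw [h A (Finset.mem_powerset.mp hA)]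

theorem Ex_mono {p : ℝ} (hp0 : 0 ≤ p) (hp1 : p ≤ 1) {X : Finset α} {f g : Finset α → ℝ}
    (h : ∀ A ⊆ X, f A ≤ g A) : Ex p X f ≤ Ex p X g := by
  unfold Ex
  apply Finset.sum_le_sum
  intro A hA
  apply mul_le_mul_of_nonneg_left (h A (Finset.mem_powerset.mp hA))
  have : 0 ≤ 1 - p := by linarith
  positivity

theorem Ex_add (p : ℝ) (X : Finset α) (f g : Finset α → ℝ) :
    Ex p X (fun A => f A + g A) = Ex p X f + Ex p X g := by
  unfold Ex
  rw [← Finset.sum_add_distrib]
  apply Finset.sum_congr rfl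
  intro A _
  ring

theorem Ex_mul (p : ℝ) (X : Finset α) (c : ℝ) (f : Finset α → ℝ) :
    Ex p X (fun A => c * f A) = c * Ex p X f := by
  unfold Ex
  rw [Finset.mul_sum]
  apply Finset.sum_congr rfl
  intro A _
  ring

theorem Ex_sum {ι : Type*} (p : ℝ) (X : Finset α) (s : Finset ι) (f : ι → Finset α → ℝ) :
    Ex p X (fun A => ∑ i ∈ s, f i A) = ∑ i ∈ s, Ex p X (f i) := by
  unfold Ex
  rw [Finset.sum_comm]
  apply Finset.sum_congr rfl
  intro A _
  rw [Finset.mul_sum]

theorem Ex_const (p : ℝ) (X : Finset α) (c : ℝ) : Ex p X (fun _ => c) = c := by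
  induction X using Finset.induction_on with
  | empty => simp [Ex_empty]
  | insert a X ha ih =>
    rw [Ex_insert p ha, ih]
    ring

theorem Ex_nonneg {p : ℝ} (hp0 : 0 ≤ p) (hp1 : p ≤ 1) {X : Finset α} {f : Finset α → ℝ}
    (h : ∀ A ⊆ X, 0 ≤ f A) : 0 ≤ Ex p X f := by
  have := Ex_mono hp0 hp1 (X := X) (f := fun _ => 0) (g := f) h
  rwa [Ex_const] at this

theorem Ex_le_const {p : ℝ} (hp0 : 0 ≤ p) (hp1 : p ≤ 1) {X : Finset α} {f : Finset α → ℝ}
    {c : ℝ} (h : ∀ A ⊆ X, f A ≤ c) : Ex p X f ≤ c := by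
  have := Ex_mono hp0 hp1 (X := X) (f := f) (g := fun _ => c) h
  rwa [Ex_const] at this

theorem Ex_union (p : ℝ) {X Y : Finset α} (h : Disjoint X Y) (f : Finset α → ℝ) :
    Ex p (X ∪ Y) f = Ex p X (fun A => Ex p Y (fun B => f (A ∪ B))) := by
  induction Y using Finset.induction_on generalizing f with
  | empty => simp [Ex_empty]
  | insert b Y hb ih =>
    have hX : Disjoint X Y := by
      apply Finset.disjoint_of_subset_right _ h
      exact Finset.subset_insert _ _
    have hbX : b ∉ X := by
      intro hbX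
      exact (Finset.disjoint_left.mp h) hbX (Finset.mem_insert_self _ _)
    have hbXY : b ∉ X ∪ Y := by simp [hbX, hb]
    have h1 : X ∪ insert b Y = insert b (X ∪ Y) := by
      rw [Finset.union_insert]
    rw [h1, Ex_insert p hbXY, ih hX, ih hX]
    have h2 : (fun A => Ex p (insert b Y) (fun B => f (A ∪ B))) =
        fun A => (1 - p) * Ex p Y (fun B => f (A ∪ B)) +
          p * Ex p Y (fun B => f (insert b (A ∪ B))) := by
      funext A
      rw [Ex_insert p hb]
      congr 2
      congr 1
      funext B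
      rw [Finset.union_insert]
    rw [h2, Ex_add, Ex_mul, Ex_mul]

/-- expectation of a monotone function is monotone in `p` -/
theorem Ex_mono_p {p q : ℝ} (hp0 : 0 ≤ p) (hpq : p ≤ q) (hq1 : q ≤ 1) (X : Finset α)
    (f : Finset α → ℝ) (hf : ∀ A B, A ⊆ B → f A ≤ f B) : Ex p X f ≤ Ex q X f := by
  induction X using Finset.induction_on generalizing f with
  | empty => simp [Ex_empty]
  | insert a X ha ih =>
    rw [Ex_insert p ha, Ex_insert q ha]
    have h1 := ih f hf
    have h2 := ih (fun A => f (insert a A)) (fun A B hAB => hf _ _ (Finset.insert_subset_insert a hAB))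
    have h3 : Ex q X f ≤ Ex q X (fun A => f (insert a A)) :=
      Ex_mono (hp0.trans hpq) hq1 fun A _ => hf _ _ (Finset.subset_insert _ _)
    have hp1 : 0 ≤ 1 - p := by linarith
    calc (1 - p) * Ex p X f + p * Ex p X (fun A => f (insert a A))
        ≤ (1 - p) * Ex q X f + p * Ex q X (fun A => f (insert a A)) := by gcongr
      _ ≤ (1 - q) * Ex q X f + q * Ex q X (fun A => f (insert a A)) := by nlinarith

/-- ignoring the part outside `X` -/
theorem Ex_inter {p : ℝ} {X Y : Finset α} (hXY : X ⊆ Y) (f : Finset α → ℝ) :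
    Ex p Y (fun A => f (A ∩ X)) = Ex p X f := by
  have hd : Disjoint X (Y \ X) := Finset.disjoint_sdiff
  rw [← Finset.union_sdiff_of_subset hXY, Ex_union p hd]
  apply Ex_congr
  intro A hA
  have : ∀ B ⊆ Y \ X, f ((A ∪ B) ∩ X) = f A := by
    intro B hB
    congr 1
    ext u
    simp only [mem_inter, mem_union]
    constructor
    · rintro ⟨h | h, hX⟩
      · exact h
      · exact absurd hX (Finset.mem_sdiff.mp (hB h)).2
    · intro h
      exact ⟨Or.inl h, hA h⟩
  rw [Ex_congr this, Ex_const]

theorem Ex_eq_top (p : ℝ) (T : Finset α) :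
    Ex p T (fun A => if T ⊆ A then (1 : ℝ) else 0) = p ^ T.card := by
  unfold Ex
  rw [Finset.sum_eq_single T]
  · simp
  · intro A hA hne
    have hn : ¬ T ⊆ A := fun h => hne (Finset.Subset.antisymm (Finset.mem_powerset.mp hA) h)
    simp [hn]
  · intro h
    exact absurd (Finset.mem_powerset_self T) h

theorem Ex_subset (p : ℝ) {T X : Finset α} (hT : T ⊆ X) :
    Ex p X (fun A => if T ⊆ A then (1 : ℝ) else 0) = p ^ T.card := by
  rw [← Ex_eq_top p T, ← Ex_inter hT]
  apply Ex_congr
  intro A _
  have : T ⊆ A ↔ T ⊆ A ∩ T := by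
    constructor
    · intro h
      exact Finset.subset_inter h (Finset.Subset.refl _)
    · intro h
      exact h.trans Finset.inter_subset_left
  by_cases h : T ⊆ A
  · rw [if_pos h, if_pos (this.mp h)]
  · rw [if_neg h, if_neg (fun h' => h (this.mpr h'))]

theorem Ex_eq_exact (p : ℝ) {T X : Finset α} (hT : T ⊆ X) :
    Ex p X (fun A => if A = T then (1 : ℝ) else 0) =
      p ^ T.card * (1 - p) ^ (X.card - T.card) := by
  unfold Ex
  rw [Finset.sum_eq_single T]
  · simp
  · intro A hA hne
    simp [hne]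
  · intro h
    exact absurd (Finset.mem_powerset.mpr hT) h

/-- union bound over a family of finite sets -/
theorem Ex_union_bound {p : ℝ} (hp0 : 0 ≤ p) (hp1 : p ≤ 1) {X : Finset α}
    (F : Finset (Finset α)) (k : ℕ) (hF : ∀ T ∈ F, T ⊆ X ∧ k ≤ T.card) (E : Finset α → Prop)
    [DecidablePred E] (hE : ∀ A ⊆ X, E A → ∃ T ∈ F, T ⊆ A) :
    Ex p X (fun A => if E A then (1 : ℝ) else 0) ≤ F.card * p ^ k := by
  calc Ex p X (fun A => if E A then (1 : ℝ) else 0)
      ≤ Ex p X (fun A => ∑ T ∈ F, (if T ⊆ A then (1 : ℝ) else 0)) := by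
        apply Ex_mono hp0 hp1
        intro A hA
        have hnn : ∀ T ∈ F, (0 : ℝ) ≤ (if T ⊆ A then (1 : ℝ) else 0) := by
          intro T _; split_ifs <;> norm_num
        split_ifs with h
        · obtain ⟨T, hT, hTA⟩ := hE A hA h
          calc (1 : ℝ) = (if T ⊆ A then (1 : ℝ) else 0) := by rw [if_pos hTA]
            _ ≤ _ := Finset.single_le_sum hnn hT
        · exact Finset.sum_nonneg hnn
    _ = ∑ T ∈ F, p ^ T.card := by
        rw [Ex_sum]
        apply Finset.sum_congr rfl
        intro T hT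
        exact Ex_subset p (hF T hT).1
    _ ≤ ∑ T ∈ F, p ^ k := Finset.sum_le_sum fun T hT =>
        pow_le_pow_of_le_one hp0 hp1 (hF T hT).2
    _ = F.card * p ^ k := by rw [Finset.sum_const, nsmul_eq_mul]

theorem Ex_card (p : ℝ) (X : Finset α) : Ex p X (fun A => (A.card : ℝ)) = p * X.card := by
  induction X using Finset.induction_on with
  | empty => simp [Ex_empty]
  | insert a X ha ih =>
    rw [Ex_insert p ha, ih, Finset.card_insert_of_notMem ha]
    have : Ex p X (fun A => ((insert a A).card : ℝ)) = Ex p X (fun A => (A.card : ℝ) + 1) := by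
      apply Ex_congr
      intro A hA
      rw [Finset.card_insert_of_notMem (fun h => ha (hA h))]
      push_cast; rfl
    rw [this, Ex_add, ih, Ex_const]
    push_cast; ring

/-- independence over disjoint blocks -/
theorem Ex_blocks {ι : Type*} [DecidableEq ι] (p : ℝ) (X : Finset α) (Z : Finset ι)
    (P : ι → Finset α) (hP : ∀ z ∈ Z, P z ⊆ X)
    (hd : ∀ z ∈ Z, ∀ z' ∈ Z, z ≠ z' → Disjoint (P z) (P z')) (f : ι → Finset α → ℝ) :
    Ex p X (fun A => ∏ z ∈ Z, f z (A ∩ P z)) = ∏ z ∈ Z, Ex p (P z) (f z) := by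
  induction Z using Finset.induction_on generalizing X with
  | empty => simp [Ex_const]
  | insert z Z hz ih =>
    have hPz : P z ⊆ X := hP z (Finset.mem_insert_self _ _)
    have hdis : Disjoint (P z) (X \ P z) := Finset.disjoint_sdiff
    have hsub : ∀ z' ∈ Z, P z' ⊆ X \ P z := by
      intro z' hz'
      rw [Finset.subset_sdiff]
      refine ⟨hP z' (Finset.mem_insert_of_mem hz'), ?_⟩
      apply (hd z (Finset.mem_insert_self _ _) z' (Finset.mem_insert_of_mem hz') ?_).symm
      rintro rfl; exact hz hz'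
    rw [Finset.prod_insert hz]
    conv_lhs => rw [← Finset.union_sdiff_of_subset hPz]
    rw [Ex_union p hdis]
    have h1 : ∀ A ⊆ P z, Ex p (X \ P z) (fun B => ∏ z' ∈ insert z Z, f z' ((A ∪ B) ∩ P z')) =
        f z A * ∏ z' ∈ Z, Ex p (P z') (f z') := by
      intro A hA
      rw [← ih (X \ P z) hsub (fun a ha b hb => hd a (Finset.mem_insert_of_mem ha) b
        (Finset.mem_insert_of_mem hb)), ← Ex_mul]
      apply Ex_congr
      intro B hB
      rw [Finset.prod_insert hz]
      congr 1
      · congr 1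
        ext u
        simp only [mem_inter, mem_union]
        constructor
        · rintro ⟨h | h, hX⟩
          · exact h
          · exact absurd hX (Finset.mem_sdiff.mp (hB h)).2
        · intro h
          exact ⟨Or.inl h, hA h⟩
      · apply Finset.prod_congr rfl
        intro z' hz'
        congr 1
        ext u
        simp only [mem_inter, mem_union]
        constructor
        · rintro ⟨h | h, hX⟩
          · have := (Finset.mem_sdiff.mp (hsub z' hz' hX)).2
            exact absurd (hA h) this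
          · exact ⟨h, hX⟩
        · rintro ⟨h, hX⟩
          exact ⟨Or.inr h, hX⟩
    rw [Ex_congr h1]
    have h2 : Ex p (P z) (fun A => f z A * ∏ z' ∈ Z, Ex p (P z') (f z')) =
        Ex p (P z) (fun A => (∏ z' ∈ Z, Ex p (P z') (f z')) * f z A) := by
      congr 1; funext A; ring
    rw [h2, Ex_mul]
    ring

theorem Ex_continuous (X : Finset α) (f : Finset α → ℝ) : Continuous (fun p => Ex p X f) := by
  unfold Ex
  fun_prop

end Pool.Agent.H77BP
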