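import Mathlib
import Pool.Agent.H77BP.Ex

/-!
Bootstrap percolation on the Hamming torus `H(n,d)`.
-/

open Finset

namespace Pool.Agent.H77BP

/-- vertices of the Hamming torus: `[n]^d` -/
abbrev V (d n : ℕ) : Type := Fin d → Fin n

/-- the coordinates in which two vertices differ -/
def diff {d n : ℕ} (x y : V d n) : Finset (Fin d) := univ.filter (fun i => x i ≠ y i)

/-- adjacency: the two vertices differ in exactly one coordinate -/
def Adj {d n : ℕ} (x y : V d n) : Prop := (diff x y).card = 1

instance {d n : ℕ} (x y : V d n) : Decidable (Adj x y) := by unfold Adj; infer_instance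

/-- one step of the process with threshold `θ`: an open vertex stays open, and a vertex with at
least `θ` open neighbours becomes open -/
def step {d n : ℕ} (θ : ℕ) (A : Finset (V d n)) : Finset (V d n) :=
  univ.filter (fun v => v ∈ A ∨ θ ≤ (A.filter (fun w => Adj v w)).card)

/-- the vertices which are open in the final configuration -/
def Final {d n : ℕ} (θ : ℕ) (A : Finset (V d n)) (v : V d n) : Prop :=
  ∃ j : ℕ, v ∈ (step θ)^[j] A

/-- some `i`-dimensional subgraph (fix `d - i` coordinates, let the others vary) is completely open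
in the final configuration -/
def OpenSub {d n : ℕ} (θ i : ℕ) (A : Finset (V d n)) : Prop :=
  ∃ (I : Finset (Fin d)) (b : V d n), I.card = i ∧
    ∀ w : V d n, (∀ j, j ∉ I → w j = b j) → Final θ A w

open Classical in
/-- the probability that the set of initially open vertices, each vertex being open independently
with probability `p`, has the property `E` -/
noncomputable def prob {d n : ℕ} (p : ℝ) (E : Finset (V d n) → Prop) : ℝ :=
  ∑ A ∈ (univ : Finset (V d n)).powerset.filter E,
    p ^ A.card * (1 - p) ^ (Fintype.card (V d n) - A.card)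

/-- `p` is a value of the threshold `p_c(i,d;θ,n)` -/
def IsThreshold (d n θ i : ℕ) (p : ℝ) : Prop :=
  0 ≤ p ∧ p ≤ 1 ∧ prob p (fun A : Finset (V d n) => OpenSub θ i A) = 1 / 2

open Classical in
theorem prob_eq {d n : ℕ} (p : ℝ) (E : Finset (V d n) → Prop) :
    prob p E = Ex p univ (fun A => if E A then (1 : ℝ) else 0) := by
  unfold prob Ex
  rw [Finset.sum_filter]
  apply Finset.sum_congr rfl
  intro A _
  rw [Finset.card_univ]
  by_cases h : E A <;> simp [h]

/-- closed sets -/
def Closed {d n : ℕ} (θ : ℕ) (U : Finset (V d n)) : Prop :=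
  ∀ v, θ ≤ (U.filter (fun w => Adj v w)).card → v ∈ U

theorem step_mono {d n : ℕ} (θ : ℕ) {A B : Finset (V d n)} (h : A ⊆ B) : step θ A ⊆ step θ B := by
  intro v hv
  simp only [step, mem_filter, mem_univ, true_and] at hv ⊢
  rcases hv with hv | hv
  · exact Or.inl (h hv)
  · right
    refine hv.trans (Finset.card_le_card ?_)
    intro w hw
    simp only [mem_filter] at hw ⊢
    exact ⟨h hw.1, hw.2⟩

theorem subset_step {d n : ℕ} (θ : ℕ) (A : Finset (V d n)) : A ⊆ step θ A := by
  intro v hv
  simp only [step, mem_filter, mem_univ, true_and]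
  exact Or.inl hv

theorem iter_mono {d n : ℕ} (θ : ℕ) {A B : Finset (V d n)} (h : A ⊆ B) (j : ℕ) :
    (step θ)^[j] A ⊆ (step θ)^[j] B := by
  induction j with
  | zero => simpa using h
  | succ j ih =>
    rw [Function.iterate_succ_apply', Function.iterate_succ_apply']
    exact step_mono θ ih

theorem iter_le {d n : ℕ} (θ : ℕ) (A : Finset (V d n)) {i j : ℕ} (h : i ≤ j) :
    (step θ)^[i] A ⊆ (step θ)^[j] A := by
  induction j with
  | zero =>
    have : i = 0 := by omega
    subst this; exact Finset.Subset.refl _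
  | succ j ih =>
    rcases Nat.lt_or_ge i (j + 1) with h' | h'
    · rw [Function.iterate_succ_apply']
      exact (ih (by omega)).trans (subset_step θ _)
    · have : i = j + 1 := by omega
      subst this; exact Finset.Subset.refl _

theorem Final_mono {d n : ℕ} {θ : ℕ} {A B : Finset (V d n)} (h : A ⊆ B) {v : V d n}
    (hv : Final θ A v) : Final θ B v := by
  obtain ⟨j, hj⟩ := hv
  exact ⟨j, iter_mono θ h j hj⟩

theorem OpenSub_mono {d n : ℕ} {θ i : ℕ} {A B : Finset (V d n)} (h : A ⊆ B)
    (hA : OpenSub θ i A) : OpenSub θ i B := by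
  obtain ⟨I, b, hI, hb⟩ := hA
  exact ⟨I, b, hI, fun w hw => Final_mono h (hb w hw)⟩

theorem Final_of_mem {d n : ℕ} {θ : ℕ} {A : Finset (V d n)} {v : V d n} (h : v ∈ A) :
    Final θ A v := ⟨0, h⟩

/-- a vertex with `θ` finally open neighbours is finally open -/
theorem Final_of_nbrs {d n : ℕ} {θ : ℕ} {A : Finset (V d n)} {v : V d n} (N : Finset (V d n))
    (hN : θ ≤ N.card) (h1 : ∀ w ∈ N, Final θ A w) (h2 : ∀ w ∈ N, Adj v w) : Final θ A v := by
  classical
  have h3 : ∃ J, ∀ w ∈ N, w ∈ (step θ)^[J] A := by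
    clear hN h2
    induction N using Finset.induction_on with
    | empty => exact ⟨0, by simp⟩
    | insert a N ha ih =>
      obtain ⟨J, hJ⟩ := ih (fun w hw => h1 w (Finset.mem_insert_of_mem hw))
      obtain ⟨j, hj⟩ := h1 a (Finset.mem_insert_self _ _)
      refine ⟨max J j, ?_⟩
      intro w hw
      rcases Finset.mem_insert.mp hw with rfl | hw
      · exact iter_le θ A (le_max_right _ _) hj
      · exact iter_le θ A (le_max_left _ _) (hJ w hw)
  obtain ⟨J, hJ⟩ := h3
  refine ⟨J + 1, ?_⟩
  rw [Function.iterate_succ_apply']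
  simp only [step, mem_filter, mem_univ, true_and]
  right
  refine hN.trans (Finset.card_le_card ?_)
  intro w hw
  exact Finset.mem_filter.mpr ⟨hJ w hw, h2 w hw⟩

theorem Final_subset_closed {d n : ℕ} {θ : ℕ} {A U : Finset (V d n)} (hAU : A ⊆ U)
    (hU : Closed θ U) {v : V d n} (hv : Final θ A v) : v ∈ U := by
  obtain ⟨j, hj⟩ := hv
  have key : ∀ j, (step θ)^[j] A ⊆ U := by
    intro j
    induction j with
    | zero => simpa using hAU
    | succ j ih =>
      rw [Function.iterate_succ_apply']
      intro w hw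
      simp only [step, mem_filter, mem_univ, true_and] at hw
      rcases hw with hw | hw
      · exact ih hw
      · apply hU
        refine hw.trans (Finset.card_le_card ?_)
        intro u hu
        simp only [mem_filter] at hu ⊢
        exact ⟨ih hu.1, hu.2⟩
  exact key j hj

theorem diff_comm {d n : ℕ} (x y : V d n) : diff x y = diff y x := by
  unfold diff; ext i; simp [ne_comm]

theorem Adj_comm {d n : ℕ} {x y : V d n} : Adj x y ↔ Adj y x := by
  unfold Adj; rw [diff_comm]

theorem diff_triangle {d n : ℕ} (x y z : V d n) : diff x z ⊆ diff x y ∪ diff y z := by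
  intro i hi
  simp only [diff, mem_filter, mem_univ, true_and, mem_union] at hi ⊢
  by_contra hcon
  push Not at hcon
  exact hi (hcon.1.trans hcon.2)

/-- coordinates which are not constant on `X` -/
def dirs {d n : ℕ} (X : Finset (V d n)) : Finset (Fin d) :=
  univ.filter (fun i => ∃ x ∈ X, ∃ y ∈ X, x i ≠ y i)

/-- the smallest subgraph containing `X` (for nonempty `X`) -/
def Hull {d n : ℕ} (X : Finset (V d n)) (w : V d n) : Prop :=
  ∀ x ∈ X, ∀ i, i ∉ dirs X → w i = x i

theorem Hull_of_mem {d n : ℕ} {X : Finset (V d n)} {w : V d n} (h : w ∈ X) : Hull X w := by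
  intro x hx i hi
  simp only [dirs, mem_filter, mem_univ, true_and, not_exists, not_and, not_not] at hi
  exact hi w h x hx

theorem dirs_mono {d n : ℕ} {X Y : Finset (V d n)} (h : X ⊆ Y) : dirs X ⊆ dirs Y := by
  intro i hi
  simp only [dirs, mem_filter, mem_univ, true_and] at hi ⊢
  obtain ⟨x, hx, y, hy, hxy⟩ := hi
  exact ⟨x, h hx, y, h hy, hxy⟩

theorem Hull_mono {d n : ℕ} {X Y : Finset (V d n)} (h : X ⊆ Y) (hX : X.Nonempty) {w : V d n}
    (hw : Hull X w) : Hull Y w := by
  obtain ⟨x0, hx0⟩ := hX
  intro y hy i hi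
  have hi' : i ∉ dirs X := fun h' => hi (dirs_mono h h')
  rw [hw x0 hx0 i hi']
  simp only [dirs, mem_filter, mem_univ, true_and, not_exists, not_and, not_not] at hi
  exact hi x0 (h hx0) y hy

theorem diff_Hull {d n : ℕ} {X : Finset (V d n)} {w x : V d n} (hw : Hull X w) (hx : x ∈ X) :
    diff w x ⊆ dirs X := by
  intro i hi
  by_contra hcon
  simp only [diff, mem_filter, mem_univ, true_and] at hi
  exact hi (hw x hx i hcon)

/-- clusters generated by `ω` -/
inductive Cl {d n : ℕ} (ω : Finset (V d n)) : Finset (V d n) → Prop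
  | single (x : V d n) : x ∈ ω → Cl ω {x}
  | merge (X Y : Finset (V d n)) : Cl ω X → Cl ω Y →
      (∃ u v, Hull X u ∧ Hull Y v ∧ (diff u v).card ≤ 2) → Cl ω (X ∪ Y)

theorem Cl_nonempty {d n : ℕ} {ω X : Finset (V d n)} (h : Cl ω X) : X.Nonempty := by
  induction h with
  | single x _ => exact ⟨x, by simp⟩
  | merge X Y _ _ _ ih1 _ => exact ih1.mono Finset.subset_union_left

theorem Cl_subset {d n : ℕ} {ω X : Finset (V d n)} (h : Cl ω X) : X ⊆ ω := by
  induction h with
  | single x hx => simpa using hx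
  | merge X Y _ _ _ ih1 ih2 => exact Finset.union_subset ih1 ih2

theorem dirs_union {d n : ℕ} {X Y : Finset (V d n)} {u v : V d n} (hu : Hull X u)
    (hv : Hull Y v) : dirs (X ∪ Y) ⊆ (dirs X ∪ dirs Y) ∪ diff u v := by
  intro i hi
  by_contra hcon
  simp only [mem_union, not_or] at hcon
  obtain ⟨⟨h1, h2⟩, h3⟩ := hcon
  simp only [diff, mem_filter, mem_univ, true_and, not_not] at h3
  have key : ∀ x ∈ X ∪ Y, x i = u i := by
    intro x hx
    rcases mem_union.mp hx with h | h
    · exact (hu x h i h1).symm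
    · rw [h3]; exact (hv x h i h2).symm
  simp only [dirs, mem_filter, mem_univ, true_and] at hi
  obtain ⟨x, hx, y, hy, hxy⟩ := hi
  exact hxy ((key x hx).trans (key y hy).symm)

/-- bound on the dimension of the hull of a cluster with `k ≤ 4` points -/
def Dm : ℕ → ℕ
  | 0 => 0
  | 1 => 0
  | 2 => 2
  | 3 => 6
  | _ => 14

theorem Cl_small {d n : ℕ} {ω : Finset (V d n)}
    (hgood : ∀ T ⊆ ω, T.card = 5 → ∃ x ∈ T, ∃ y ∈ T, 30 < (diff x y).card)
    {X : Finset (V d n)} (hX : Cl ω X) : X.card ≤ 4 ∧ (dirs X).card ≤ Dm X.card := by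
  classical
  induction hX with
  | single x _ =>
    refine ⟨by simp, ?_⟩
    simp [dirs, Dm]
  | merge X Y h1 h2 h3 ih1 ih2 =>
    obtain ⟨u, v, hu, hv, huv⟩ := h3
    by_cases hXY : X ∪ Y = X
    · rw [hXY]; exact ih1
    by_cases hYX : X ∪ Y = Y
    · rw [hYX]; exact ih2
    have c1 : X.card < (X ∪ Y).card :=
      Finset.card_lt_card (Finset.ssubset_iff_subset_ne.mpr
        ⟨Finset.subset_union_left, fun h => hXY h.symm⟩)
    have c2 : Y.card < (X ∪ Y).card :=
      Finset.card_lt_card (Finset.ssubset_iff_subset_ne.mpr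
        ⟨Finset.subset_union_right, fun h => hYX h.symm⟩)
    have hD : ∀ k, Dm k ≤ 14 := by
      intro k
      match k with
      | 0 => simp [Dm]
      | 1 => simp [Dm]
      | 2 => simp [Dm]
      | 3 => simp [Dm]
      | (k + 4) => simp [Dm]
    have e1 : (dirs (X ∪ Y)).card ≤ (dirs X).card + (dirs Y).card + 2 := by
      calc (dirs (X ∪ Y)).card ≤ ((dirs X ∪ dirs Y) ∪ diff u v).card :=
            Finset.card_le_card (dirs_union hu hv)
        _ ≤ (dirs X ∪ dirs Y).card + (diff u v).card := Finset.card_union_le _ _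
        _ ≤ _ := by
          have := Finset.card_union_le (dirs X) (dirs Y)
          omega
    have e2 : (dirs (X ∪ Y)).card ≤ 30 := by
      have := hD X.card
      have := hD Y.card
      omega
    have e3 : (X ∪ Y).card ≤ 4 := by
      by_contra hcon
      push Not at hcon
      obtain ⟨T, hT, hT5⟩ := Finset.exists_subset_card_eq (show 5 ≤ (X ∪ Y).card by omega)
      have hTω : T ⊆ ω := hT.trans (Finset.union_subset (Cl_subset h1) (Cl_subset h2))
      obtain ⟨x, hx, y, hy, hxy⟩ := hgood T hTω hT5
      have : (diff x y).card ≤ (dirs (X ∪ Y)).card :=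
        Finset.card_le_card (diff_Hull (Hull_of_mem (hT hx)) (hT hy))
      omega
    refine ⟨e3, ?_⟩
    have p1 : 0 < X.card := (Cl_nonempty h1).card_pos
    have p2 : 0 < Y.card := (Cl_nonempty h2).card_pos
    have hmono : ∀ a b, 0 < a → a < b → b ≤ 4 → Dm a ≤ Dm (b - 1) := by
      intro a b ha hab hb
      interval_cases b <;> interval_cases a <;> simp [Dm]
    have hrec : ∀ b, 2 ≤ b → b ≤ 4 → 2 * Dm (b - 1) + 2 ≤ Dm b := by
      intro b hb hb4
      interval_cases b <;> simp [Dm]
    have m1 := hmono _ _ p1 c1 e3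
    have m2 := hmono _ _ p2 c2 e3
    have m3 := hrec (X ∪ Y).card (by omega) e3
    omega

/-- the union of the hulls of the clusters is closed -/
theorem hulls_closed {d n : ℕ} {ω : Finset (V d n)} {w u1 u2 : V d n} (hne : u1 ≠ u2)
    (h1 : Adj w u1) (h2 : Adj w u2) (hu1 : ∃ X, Cl ω X ∧ Hull X u1)
    (hu2 : ∃ X, Cl ω X ∧ Hull X u2) : ∃ X, Cl ω X ∧ Hull X w := by
  classical
  obtain ⟨X, hX, hXu⟩ := hu1
  obtain ⟨Y, hY, hYu⟩ := hu2
  have hnear : (diff u1 u2).card ≤ 2 := by
    calc (diff u1 u2).card ≤ (diff u1 w ∪ diff w u2).card :=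
          Finset.card_le_card (diff_triangle _ _ _)
      _ ≤ (diff u1 w).card + (diff w u2).card := Finset.card_union_le _ _
      _ = 2 := by
        have e1 : (diff u1 w).card = 1 := by rw [diff_comm]; exact h1
        have e2 : (diff w u2).card = 1 := h2
        omega
  refine ⟨X ∪ Y, Cl.merge X Y hX hY ⟨u1, u2, hXu, hYu, hnear⟩, ?_⟩
  have a1 : Hull (X ∪ Y) u1 := Hull_mono Finset.subset_union_left (Cl_nonempty hX) hXu
  have a2 : Hull (X ∪ Y) u2 := Hull_mono Finset.subset_union_right (Cl_nonempty hY) hYu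
  intro x hx i hi
  -- u1 and u2 agree with x at i
  have b1 := a1 x hx i hi
  have b2 := a2 x hx i hi
  rw [← b1]
  by_contra hcon
  -- then i is the unique coordinate where w differs from u1, and from u2
  have c1 : diff w u1 = {i} := by
    obtain ⟨j, hj⟩ := Finset.card_eq_one.mp h1
    have : i ∈ diff w u1 := by simp [diff, hcon]
    rw [hj, mem_singleton] at this
    rw [hj, this]
  have c2 : diff w u2 = {i} := by
    obtain ⟨j, hj⟩ := Finset.card_eq_one.mp h2
    have : i ∈ diff w u2 := by
      simp only [diff, mem_filter, mem_univ, true_and]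
      intro h
      exact hcon (h.trans (b2.trans b1.symm))
    rw [hj, mem_singleton] at this
    rw [hj, this]
  apply hne
  funext j
  by_cases hj : j = i
  · subst hj; exact b1.trans b2.symm
  · have d1 : w j = u1 j := by
      by_contra h
      have : j ∈ diff w u1 := by simp [diff, h]
      rw [c1, mem_singleton] at this
      exact hj this
    have d2 : w j = u2 j := by
      by_contra h
      have : j ∈ diff w u2 := by simp [diff, h]
      rw [c2, mem_singleton] at this
      exact hj this
    exact d1.symm.trans d2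

/-- final configuration is near the initial one, if there are no five close points -/
theorem Final_near {d n θ : ℕ} (hθ : 2 ≤ θ) {ω : Finset (V d n)}
    (hgood : ∀ T ⊆ ω, T.card = 5 → ∃ x ∈ T, ∃ y ∈ T, 30 < (diff x y).card)
    {v : V d n} (hv : Final θ ω v) : ∃ x ∈ ω, (diff v x).card ≤ 14 := by
  classical
  set U : Finset (V d n) := univ.filter (fun w => ∃ X, Cl ω X ∧ Hull X w) with hU
  have hsub : ω ⊆ U := by
    intro x hx
    simp only [hU, mem_filter, mem_univ, true_and]
    exact ⟨{x}, Cl.single x hx, Hull_of_mem (by simp)⟩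
  have hcl : Closed θ U := by
    intro w hw
    have h2 : 1 < (U.filter (fun u => Adj w u)).card := by omega
    obtain ⟨u1, hu1, u2, hu2, hne⟩ := Finset.one_lt_card.mp h2
    simp only [hU, mem_filter, mem_univ, true_and] at hu1 hu2 ⊢
    exact hulls_closed hne hu1.2 hu2.2 hu1.1 hu2.1
  have hvU := Final_subset_closed hsub hcl hv
  simp only [hU, mem_filter, mem_univ, true_and] at hvU
  obtain ⟨X, hX, hXv⟩ := hvU
  obtain ⟨x, hx⟩ := Cl_nonempty hX
  obtain ⟨h4, hd⟩ := Cl_small hgood hX
  refine ⟨x, Cl_subset hX hx, ?_⟩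
  have hD : ∀ k, Dm k ≤ 14 := by
    intro k
    match k with
    | 0 => simp [Dm]
    | 1 => simp [Dm]
    | 2 => simp [Dm]
    | 3 => simp [Dm]
    | (k + 4) => simp [Dm]
  calc (diff v x).card ≤ (dirs X).card := Finset.card_le_card (diff_Hull hXv hx)
    _ ≤ Dm X.card := hd
    _ ≤ 14 := hD _

end Pool.Agent.H77BP
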