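import Mathlib
import Pool.Agent.H77BP.Model

/-!
Lower bound for the threshold of the whole graph in high dimension.
-/

open Finset

namespace Pool.Agent.H77BP

/-- balls in the Hamming torus -/
def ball {d n : ℕ} (x : V d n) (r : ℕ) : Finset (V d n) :=
  univ.filter (fun y => (diff x y).card ≤ r)

theorem ball_card {d n : ℕ} (hn : 0 < n) (x : V d n) (r : ℕ) :
    (ball x r).card ≤ 2 ^ d * n ^ r := by
  classical
  -- for each set `S` of coordinates, the vertices differing from `x` only in `S`
  have h1 : ball x r ⊆ ((univ : Finset (Finset (Fin d))).filter (fun S => S.card ≤ r)).biUnion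
      (fun S => Fintype.piFinset (fun i => if i ∈ S then (univ : Finset (Fin n)) else {x i})) := by
    intro y hy
    simp only [ball, mem_filter, mem_univ, true_and] at hy
    rw [mem_biUnion]
    refine ⟨diff x y, by simpa using hy, ?_⟩
    rw [Fintype.mem_piFinset]
    intro i
    by_cases hi : i ∈ diff x y
    · rw [if_pos hi]; exact mem_univ _
    · rw [if_neg hi, mem_singleton]
      simp only [diff, mem_filter, mem_univ, true_and, not_not] at hi
      exact hi.symm
  calc (ball x r).card ≤ _ := Finset.card_le_card h1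
    _ ≤ ∑ S ∈ (univ : Finset (Finset (Fin d))).filter (fun S => S.card ≤ r),
        (Fintype.piFinset (fun i => if i ∈ S then (univ : Finset (Fin n)) else {x i})).card :=
        Finset.card_biUnion_le
    _ ≤ ∑ S ∈ (univ : Finset (Finset (Fin d))).filter (fun S => S.card ≤ r), n ^ r := by
        apply Finset.sum_le_sum
        intro S hS
        rw [Fintype.card_piFinset]
        have : ∀ i, (if i ∈ S then (univ : Finset (Fin n)) else {x i}).card =
            if i ∈ S then n else 1 := by
          intro i; split_ifs <;> simp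
        simp_rw [this]
        rw [Finset.prod_ite, Finset.prod_const, Finset.prod_const_one, mul_one]
        have h2 : (univ.filter (fun i => i ∈ S)).card = S.card := by
          congr 1; ext i; simp
        rw [h2]
        exact Nat.pow_le_pow_right hn (mem_filter.mp hS).2
    _ ≤ 2 ^ d * n ^ r := by
        rw [Finset.sum_const, smul_eq_mul]
        apply Nat.mul_le_mul_right
        calc _ ≤ (univ : Finset (Finset (Fin d))).card := Finset.card_filter_le _ _
          _ = 2 ^ d := by simp

/-- the five-element sets with pairwise distances at most `30` -/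
def close5 (d n : ℕ) : Finset (Finset (V d n)) :=
  univ.filter (fun T => T.card = 5 ∧ ∀ x ∈ T, ∀ y ∈ T, (diff x y).card ≤ 30)

theorem close5_card {d n : ℕ} (hn : 0 < n) :
    (close5 d n).card ≤ n ^ d * (2 ^ d * n ^ 30) ^ 4 := by
  classical
  -- parametrise by `x` and four further points of the ball around `x`
  set Q : Finset (Σ _ : V d n, Fin 4 → V d n) :=
    univ.sigma (fun x => Fintype.piFinset (fun _ : Fin 4 => ball x 30)) with hQ
  have h1 : close5 d n ⊆ Q.image (fun q => insert q.1 (univ.image q.2)) := by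
    intro T hT
    simp only [close5, mem_filter, mem_univ, true_and] at hT
    obtain ⟨hc, hd⟩ := hT
    obtain ⟨x, hx⟩ : T.Nonempty := by
      rw [← Finset.card_pos]; omega
    have hc' : (T.erase x).card = 4 := by rw [Finset.card_erase_of_mem hx]; omega
    have e := (T.erase x).equivFinOfCardEq hc'
    rw [mem_image]
    refine ⟨⟨x, fun i => (e.symm i : V d n)⟩, ?_, ?_⟩
    · rw [hQ, mem_sigma]
      refine ⟨mem_univ _, ?_⟩
      rw [Fintype.mem_piFinset]
      intro i
      simp only [ball, mem_filter, mem_univ, true_and]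
      exact hd x hx _ (Finset.mem_of_mem_erase (e.symm i).2)
    · have himg : (univ.image (fun i : Fin 4 => (e.symm i : V d n))) = T.erase x := by
        ext y
        simp only [mem_image, mem_univ, true_and]
        constructor
        · rintro ⟨i, rfl⟩
          exact (e.symm i).2
        · intro hy
          exact ⟨e ⟨y, hy⟩, by simp⟩
      simp only [himg]
      exact Finset.insert_erase hx
  calc (close5 d n).card ≤ _ := Finset.card_le_card h1
    _ ≤ Q.card := Finset.card_image_le
    _ = ∑ x : V d n, (ball x 30).card ^ 4 := by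
        rw [hQ, Finset.card_sigma]
        apply Finset.sum_congr rfl
        intro x _
        rw [Fintype.card_piFinset]
        simp
    _ ≤ ∑ x : V d n, (2 ^ d * n ^ 30) ^ 4 := by
        apply Finset.sum_le_sum
        intro x _
        exact Nat.pow_le_pow_left (ball_card hn x 30) 4
    _ = n ^ d * (2 ^ d * n ^ 30) ^ 4 := by
        rw [Finset.sum_const, smul_eq_mul]
        congr 1
        simp

theorem OpenSub_full {d n θ : ℕ} {A : Finset (V d n)} (h : OpenSub θ d A) (v : V d n) :
    Final θ A v := by
  obtain ⟨I, b, hI, hb⟩ := h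
  apply hb
  intro j hj
  exfalso
  apply hj
  have : I = univ := by
    rw [← Finset.card_eq_iff_eq_univ, hI]; simp
  rw [this]; exact mem_univ _

/-- probability that everything becomes open -/
theorem prob_full_le {d n θ : ℕ} (hθ : 2 ≤ θ) (hn : 0 < n) {p : ℝ} (hp0 : 0 ≤ p) (hp1 : p ≤ 1) :
    prob p (fun A : Finset (V d n) => OpenSub θ d A) ≤
      ((n ^ d * (2 ^ d * n ^ 30) ^ 4 : ℕ) : ℝ) * p ^ 5 + ((2 ^ d * n ^ 14 : ℕ) : ℝ) * p := by
  classical
  rw [prob_eq]
  have hnr : (0 : ℝ) < n := by exact_mod_cast hn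
  have h1 : ∀ A ⊆ (univ : Finset (V d n)),
      (if OpenSub θ d A then (1 : ℝ) else 0) ≤
      (if ∃ T ∈ close5 d n, T ⊆ A then (1 : ℝ) else 0) +
        (((2 ^ d * n ^ 14 : ℕ) : ℝ) / (n : ℝ) ^ d) * (A.card : ℝ) := by
    intro A _
    have t1 : (0 : ℝ) ≤ (if ∃ T ∈ close5 d n, T ⊆ A then (1 : ℝ) else 0) := by
      split_ifs <;> norm_num
    have t2 : (0 : ℝ) ≤ (((2 ^ d * n ^ 14 : ℕ) : ℝ) / (n : ℝ) ^ d) * (A.card : ℝ) := by
      positivity
    by_cases hO : OpenSub θ d A
    swap
    · rw [if_neg hO]; linarith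
    rw [if_pos hO]
    by_cases hbad : ∃ T ∈ close5 d n, T ⊆ A
    · rw [if_pos hbad]; linarith
    rw [if_neg hbad, zero_add]
    have hgood : ∀ T ⊆ A, T.card = 5 → ∃ x ∈ T, ∃ y ∈ T, 30 < (diff x y).card := by
      intro T hT h5
      by_contra hcon
      push Not at hcon
      apply hbad
      refine ⟨T, ?_, hT⟩
      simp only [close5, mem_filter, mem_univ, true_and]
      exact ⟨h5, hcon⟩
    have hcover : (univ : Finset (V d n)) ⊆ A.biUnion (fun x => ball x 14) := by
      intro v _
      obtain ⟨x, hx, hd⟩ := Final_near hθ hgood (OpenSub_full hO v)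
      rw [mem_biUnion]
      refine ⟨x, hx, ?_⟩
      simp only [ball, mem_filter, mem_univ, true_and]
      rw [diff_comm]; exact hd
    have hc : n ^ d ≤ A.card * (2 ^ d * n ^ 14) := by
      calc n ^ d = (univ : Finset (V d n)).card := by simp
        _ ≤ (A.biUnion (fun x => ball x 14)).card := Finset.card_le_card hcover
        _ ≤ ∑ x ∈ A, (ball x 14).card := Finset.card_biUnion_le
        _ ≤ ∑ x ∈ A, 2 ^ d * n ^ 14 := Finset.sum_le_sum fun x _ => ball_card hn x 14
        _ = A.card * (2 ^ d * n ^ 14) := by rw [Finset.sum_const, smul_eq_mul]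
    have hc' : (n : ℝ) ^ d ≤ A.card * ((2 ^ d * n ^ 14 : ℕ) : ℝ) := by exact_mod_cast hc
    rw [div_mul_eq_mul_div, le_div_iff₀ (by positivity)]
    linarith
  refine (Ex_mono hp0 hp1 h1).trans ?_
  rw [Ex_add, Ex_mul, Ex_card]
  have h2 : Ex p univ (fun A : Finset (V d n) =>
      if ∃ T ∈ close5 d n, T ⊆ A then (1 : ℝ) else 0) ≤ (close5 d n).card * p ^ 5 := by
    apply Ex_union_bound hp0 hp1 (close5 d n) 5
    · intro T hT
      simp only [close5, mem_filter, mem_univ, true_and] at hT
      exact ⟨Finset.subset_univ _, by omega⟩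
    · intro A _ h
      exact h
  have h3 : ((close5 d n).card : ℝ) * p ^ 5 ≤ ((n ^ d * (2 ^ d * n ^ 30) ^ 4 : ℕ) : ℝ) * p ^ 5 := by
    apply mul_le_mul_of_nonneg_right _ (by positivity)
    exact_mod_cast close5_card hn
  have h4 : (((2 ^ d * n ^ 14 : ℕ) : ℝ) / (n : ℝ) ^ d) * (p * ((univ : Finset (V d n)).card : ℝ)) =
      ((2 ^ d * n ^ 14 : ℕ) : ℝ) * p := by
    have : ((univ : Finset (V d n)).card : ℝ) = (n : ℝ) ^ d := by simp
    rw [this]
    field_simp
  linarith

end Pool.Agent.H77BP
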