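import Mathlib
import Pool.Agent.H77BP.Upper

/-!
Nucleation of planes with threshold `3`.
-/

open Finset

namespace Pool.Agent.H77BP

variable {m n : ℕ}

/-- the vertex with first two coordinates `u, v` and remaining coordinates `z` -/
def pt (u v : Fin n) (z : Fin m → Fin n) : V (m + 2) n := Fin.cons u (Fin.cons v z)

theorem pt_inj {u v u' v' : Fin n} {z z' : Fin m → Fin n} :
    pt u v z = pt u' v' z' ↔ u = u' ∧ v = v' ∧ z = z' := by
  unfold pt
  rw [Fin.cons_inj, Fin.cons_inj]

theorem pt_zero (u v : Fin n) (z : Fin m → Fin n) : pt u v z 0 = u := rfl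

theorem pt_one (u v : Fin n) (z : Fin m → Fin n) : pt u v z 1 = v := rfl

theorem pt_succ (u v : Fin n) (z : Fin m → Fin n) (i : Fin m) : pt u v z i.succ.succ = z i := rfl

theorem pt_self (w : V (m + 2) n) : w = pt (w 0) (w 1) (fun i => w i.succ.succ) := by
  funext i
  refine Fin.cases ?_ (fun j => ?_) i
  · rfl
  · refine Fin.cases ?_ (fun l => ?_) j
    · rfl
    · rfl

theorem adj_row {u v v' : Fin n} {z : Fin m → Fin n} (h : v ≠ v') :
    Adj (pt u v z) (pt u v' z) := by
  unfold Adj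
  rw [Finset.card_eq_one]
  refine ⟨1, ?_⟩
  ext i
  simp only [diff, mem_filter, mem_univ, true_and, mem_singleton]
  refine Fin.cases ?_ (fun j => ?_) i
  · simp [pt_zero]
  · refine Fin.cases ?_ (fun l => ?_) j
    · constructor
      · intro _; rfl
      · intro _; exact h
    · constructor
      · intro hh; exact absurd rfl hh
      · intro hh
        have := congrArg Fin.val hh
        simp at this

theorem adj_col {u u' v : Fin n} {z : Fin m → Fin n} (h : u ≠ u') :
    Adj (pt u v z) (pt u' v z) := by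
  unfold Adj
  rw [Finset.card_eq_one]
  refine ⟨0, ?_⟩
  ext i
  simp only [diff, mem_filter, mem_univ, true_and, mem_singleton]
  refine Fin.cases ?_ (fun j => ?_) i
  · constructor
    · intro _; rfl
    · intro _; exact h
  · constructor
    · intro hh
      exfalso
      apply hh
      refine Fin.cases ?_ (fun l => ?_) j
      · rfl
      · rfl
    · intro hh
      exact absurd hh (Fin.succ_ne_zero j)

theorem Final_of_three {d : ℕ} {A : Finset (V d n)} {v x1 x2 x3 : V d n} (h12 : x1 ≠ x2)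
    (h13 : x1 ≠ x3) (h23 : x2 ≠ x3) (f1 : Final 3 A x1) (f2 : Final 3 A x2) (f3 : Final 3 A x3)
    (a1 : Adj v x1) (a2 : Adj v x2) (a3 : Adj v x3) : Final 3 A v := by
  classical
  apply Final_of_nbrs {x1, x2, x3}
  · rw [Finset.card_eq_three.mpr ⟨x1, x2, x3, h12, h13, h23, rfl⟩]
  · intro w hw
    simp only [mem_insert, mem_singleton] at hw
    rcases hw with rfl | rfl | rfl <;> assumption
  · intro w hw
    simp only [mem_insert, mem_singleton] at hw
    rcases hw with rfl | rfl | rfl <;> assumption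

/-- four points fill a plane -/
theorem plane_fill {A : Finset (V (m + 2) n)} {z : Fin m → Fin n} {r1 r2 r3 a a' b c : Fin n}
    (h12 : r1 ≠ r2) (h13 : r1 ≠ r3) (h23 : r2 ≠ r3) (haa : a ≠ a') (hab : a ≠ b) (hac : a ≠ c)
    (hab' : a' ≠ b) (hac' : a' ≠ c) (hbc : b ≠ c)
    (g1 : Final 3 A (pt r1 a z)) (g2 : Final 3 A (pt r1 a' z)) (g3 : Final 3 A (pt r2 b z))
    (g4 : Final 3 A (pt r3 c z)) (u v : Fin n) : Final 3 A (pt u v z) := by
  -- rules
  have rrc : ∀ {u u' y y1 y2 : Fin n}, u ≠ u' → y1 ≠ y2 → y ≠ y1 → y ≠ y2 →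
      Final 3 A (pt u y1 z) → Final 3 A (pt u y2 z) → Final 3 A (pt u' y z) →
      Final 3 A (pt u y z) := by
    intro u u' y y1 y2 hu h12 h1 h2 f1 f2 f3
    refine Final_of_three ?_ ?_ ?_ f1 f2 f3 (adj_row h1) (adj_row h2) (adj_col hu)
    · intro h; exact h12 (pt_inj.mp h).2.1
    · intro h; exact hu (pt_inj.mp h).1
    · intro h; exact hu (pt_inj.mp h).1
  have rcc : ∀ {u u1 u2 y y1 : Fin n}, u ≠ u1 → u ≠ u2 → u1 ≠ u2 → y ≠ y1 →
      Final 3 A (pt u y1 z) → Final 3 A (pt u1 y z) → Final 3 A (pt u2 y z) →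
      Final 3 A (pt u y z) := by
    intro u u1 u2 y y1 hu1 hu2 hu12 h1 f1 f2 f3
    refine Final_of_three ?_ ?_ ?_ f1 f2 f3 (adj_row h1) (adj_col hu1) (adj_col hu2)
    · intro h; exact hu1 (pt_inj.mp h).1
    · intro h; exact hu2 (pt_inj.mp h).1
    · intro h; exact hu12 (pt_inj.mp h).1
  have rrr : ∀ {u y y1 y2 y3 : Fin n}, y1 ≠ y2 → y1 ≠ y3 → y2 ≠ y3 → y ≠ y1 → y ≠ y2 → y ≠ y3 →
      Final 3 A (pt u y1 z) → Final 3 A (pt u y2 z) → Final 3 A (pt u y3 z) →
      Final 3 A (pt u y z) := by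
    intro u y y1 y2 y3 h12 h13 h23 h1 h2 h3 f1 f2 f3
    refine Final_of_three ?_ ?_ ?_ f1 f2 f3 (adj_row h1) (adj_row h2) (adj_row h3)
    · intro h; exact h12 (pt_inj.mp h).2.1
    · intro h; exact h13 (pt_inj.mp h).2.1
    · intro h; exact h23 (pt_inj.mp h).2.1
  have ccc : ∀ {u u1 u2 u3 y : Fin n}, u1 ≠ u2 → u1 ≠ u3 → u2 ≠ u3 → u ≠ u1 → u ≠ u2 → u ≠ u3 →
      Final 3 A (pt u1 y z) → Final 3 A (pt u2 y z) → Final 3 A (pt u3 y z) →
      Final 3 A (pt u y z) := by
    intro u u1 u2 u3 y h12 h13 h23 h1 h2 h3 f1 f2 f3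
    refine Final_of_three ?_ ?_ ?_ f1 f2 f3 (adj_col h1) (adj_col h2) (adj_col h3)
    · intro h; exact h12 (pt_inj.mp h).1
    · intro h; exact h13 (pt_inj.mp h).1
    · intro h; exact h23 (pt_inj.mp h).1
  have s1b : Final 3 A (pt r1 b z) := rrc h12 haa hab.symm hab'.symm g1 g2 g3
  have s1c : Final 3 A (pt r1 c z) := rrc h13 haa hac.symm hac'.symm g1 g2 g4
  have row1 : ∀ y, Final 3 A (pt r1 y z) := by
    intro y
    by_cases e1 : y = a
    · rw [e1]; exact g1
    by_cases e2 : y = a'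
    · rw [e2]; exact g2
    by_cases e3 : y = b
    · rw [e3]; exact s1b
    exact rrr haa hab hab' e1 e2 e3 g1 g2 s1b
  have s2c : Final 3 A (pt r2 c z) := rcc h12.symm h23 h13 hbc.symm g3 s1c g4
  have row2 : ∀ y, Final 3 A (pt r2 y z) := by
    intro y
    by_cases e1 : y = b
    · rw [e1]; exact g3
    by_cases e2 : y = c
    · rw [e2]; exact s2c
    exact rrc h12.symm hbc e1 e2 g3 s2c (row1 y)
  have row3 : ∀ y, Final 3 A (pt r3 y z) := by
    intro y
    by_cases e1 : y = c
    · rw [e1]; exact g4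
    exact rcc h13.symm h23.symm h12 e1 g4 (row1 y) (row2 y)
  by_cases e1 : u = r1
  · rw [e1]; exact row1 v
  by_cases e2 : u = r2
  · rw [e2]; exact row2 v
  by_cases e3 : u = r3
  · rw [e3]; exact row3 v
  exact ccc h12 h13 h23 e1 e2 e3 (row1 v) (row2 v) (row3 v)

/-- the `j`-th quarter of `[n]` -/
def quarter (j : Fin 4) (i : Fin (n / 4)) : Fin n :=
  ⟨j.1 * (n / 4) + i.1, by
    have h1 := i.2
    have h2 := j.2
    have h3 : j.1 * (n / 4) ≤ 3 * (n / 4) := Nat.mul_le_mul_right _ (by omega)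
    omega⟩

theorem quarter_inj {j j' : Fin 4} {i i' : Fin (n / 4)} (h : quarter j i = quarter j' i') :
    j = j' ∧ i = i' := by
  have h1 := congrArg Fin.val h
  simp only [quarter] at h1
  have a1 := i.2
  have a2 := i'.2
  have hj : j.1 = j'.1 := by
    rcases lt_trichotomy j.1 j'.1 with hlt | heq | hgt
    · exfalso
      have : (j.1 + 1) * (n / 4) ≤ j'.1 * (n / 4) := Nat.mul_le_mul_right _ hlt
      have e : (j.1 + 1) * (n / 4) = j.1 * (n / 4) + n / 4 := by ring
      omega
    · exact heq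
    · exfalso
      have : (j'.1 + 1) * (n / 4) ≤ j.1 * (n / 4) := Nat.mul_le_mul_right _ hgt
      have e : (j'.1 + 1) * (n / 4) = j'.1 * (n / 4) + n / 4 := by ring
      omega
  refine ⟨Fin.ext hj, Fin.ext ?_⟩
  rw [hj] at h1
  omega

theorem quarter_ne {j j' : Fin 4} {i i' : Fin (n / 4)} (h : j ≠ j') :
    quarter j i ≠ quarter j' i' := fun h' => h (quarter_inj h').1

/-- four-point configurations filling the plane over `z` -/
def cfg (z : Fin m → Fin n) (τ : Fin 7 → Fin (n / 4)) : Finset (V (m + 2) n) :=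
  {pt (quarter 0 (τ 0)) (quarter 0 (τ 1)) z, pt (quarter 0 (τ 0)) (quarter 1 (τ 2)) z,
    pt (quarter 1 (τ 3)) (quarter 2 (τ 4)) z, pt (quarter 2 (τ 5)) (quarter 3 (τ 6)) z}

theorem cfg_card (z : Fin m → Fin n) (τ : Fin 7 → Fin (n / 4)) : (cfg z τ).card = 4 := by
  unfold cfg
  rw [Finset.card_eq_of_equiv_fin]
  have h : ∀ {j j' : Fin 4} {u u' : Fin n} {i i' : Fin (n / 4)}, j ≠ j' →
      pt u (quarter j i) z ≠ pt u' (quarter j' i') z := by
    intro j j' u u' i i' hj h
    exact hj (quarter_inj (pt_inj.mp h).2.1).1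
  apply Finset.equivFinOfCardEq
  rw [Finset.card_insert_of_notMem, Finset.card_insert_of_notMem, Finset.card_insert_of_notMem,
    Finset.card_singleton]
  · simp only [mem_singleton]
    exact h (by decide)
  · simp only [mem_insert, mem_singleton, not_or]
    exact ⟨h (by decide), h (by decide)⟩
  · simp only [mem_insert, mem_singleton, not_or]
    exact ⟨h (by decide), h (by decide), h (by decide)⟩

theorem cfg_inj (z : Fin m → Fin n) : Function.Injective (cfg (n := n) z) := by
  intro τ τ' h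
  have h' : ∀ w, w ∈ cfg z τ ↔ w ∈ cfg z τ' := fun w => by rw [h]
  have key : ∀ {j j' : Fin 4} {u u' : Fin n} {i i' : Fin (n / 4)}, j ≠ j' →
      pt u (quarter j i) z ≠ pt u' (quarter j' i') z := by
    intro j j' u u' i i' hj h
    exact hj (quarter_inj (pt_inj.mp h).2.1).1
  have m0 := (h' (pt (quarter 0 (τ 0)) (quarter 0 (τ 1)) z)).mp (by simp [cfg])
  have m1 := (h' (pt (quarter 0 (τ 0)) (quarter 1 (τ 2)) z)).mp (by simp [cfg])
  have m2 := (h' (pt (quarter 1 (τ 3)) (quarter 2 (τ 4)) z)).mp (by simp [cfg])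
  have m3 := (h' (pt (quarter 2 (τ 5)) (quarter 3 (τ 6)) z)).mp (by simp [cfg])
  simp only [cfg, mem_insert, mem_singleton] at m0 m1 m2 m3
  have e0 : τ 0 = τ' 0 ∧ τ 1 = τ' 1 := by
    rcases m0 with m0 | m0 | m0 | m0
    · have := pt_inj.mp m0
      exact ⟨(quarter_inj this.1).2, (quarter_inj this.2.1).2⟩
    · exact absurd m0 (key (by decide))
    · exact absurd m0 (key (by decide))
    · exact absurd m0 (key (by decide))
  have e1 : τ 2 = τ' 2 := by
    rcases m1 with m1 | m1 | m1 | m1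
    · exact absurd m1 (key (by decide))
    · exact (quarter_inj (pt_inj.mp m1).2.1).2
    · exact absurd m1 (key (by decide))
    · exact absurd m1 (key (by decide))
  have e2 : τ 3 = τ' 3 ∧ τ 4 = τ' 4 := by
    rcases m2 with m2 | m2 | m2 | m2
    · exact absurd m2 (key (by decide))
    · exact absurd m2 (key (by decide))
    · have := pt_inj.mp m2
      exact ⟨(quarter_inj this.1).2, (quarter_inj this.2.1).2⟩
    · exact absurd m2 (key (by decide))
  have e3 : τ 5 = τ' 5 ∧ τ 6 = τ' 6 := by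
    rcases m3 with m3 | m3 | m3 | m3
    · exact absurd m3 (key (by decide))
    · exact absurd m3 (key (by decide))
    · exact absurd m3 (key (by decide))
    · have := pt_inj.mp m3
      exact ⟨(quarter_inj this.1).2, (quarter_inj this.2.1).2⟩
  funext i
  fin_cases i
  · exact e0.1
  · exact e0.2
  · exact e1
  · exact e2.1
  · exact e2.2
  · exact e3.1
  · exact e3.2

/-- the plane over `z` -/
def plane (z : Fin m → Fin n) : Finset (V (m + 2) n) :=
  (univ : Finset (Fin n × Fin n)).image (fun q => pt q.1 q.2 z)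

theorem plane_card (z : Fin m → Fin n) : (plane z).card = n ^ 2 := by
  unfold plane
  rw [Finset.card_image_of_injective]
  · simp [sq]
  · intro q q' h
    have := pt_inj.mp h
    exact Prod.ext this.1 this.2.1

theorem plane_disj {z z' : Fin m → Fin n} (h : z ≠ z') : Disjoint (plane z) (plane z') := by
  rw [Finset.disjoint_left]
  intro w h1 h2
  simp only [plane, mem_image, mem_univ, true_and] at h1 h2
  obtain ⟨q, hq⟩ := h1
  obtain ⟨q', hq'⟩ := h2
  rw [← hq] at hq'
  exact h (pt_inj.mp hq').2.2.symm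

theorem cfg_subset (z : Fin m → Fin n) (τ : Fin 7 → Fin (n / 4)) : cfg z τ ⊆ plane z := by
  intro w hw
  simp only [cfg, mem_insert, mem_singleton] at hw
  simp only [plane, mem_image, mem_univ, true_and]
  rcases hw with rfl | rfl | rfl | rfl <;> exact ⟨(_, _), rfl⟩

theorem open_of_cfg {A : Finset (V (m + 2) n)} {z : Fin m → Fin n} {τ : Fin 7 → Fin (n / 4)}
    (h : cfg z τ ⊆ A) : OpenSub 3 2 A := by
  have hf : ∀ w ∈ cfg z τ, Final 3 A w := fun w hw => Final_of_mem (h hw)
  refine ⟨{0, 1}, pt (quarter 0 (τ 0)) (quarter 0 (τ 1)) z, ?_, ?_⟩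
  · rw [Finset.card_pair]
    intro h
    have := congrArg Fin.val h
    simp at this
  · intro w hw
    have hz : (fun i => w i.succ.succ) = z := by
      funext i
      have := hw i.succ.succ (by
        simp only [mem_insert, mem_singleton, not_or]
        constructor
        · exact Fin.succ_ne_zero _
        · intro h
          have := congrArg Fin.val h
          simp at this)
      rw [this, pt_succ]
    rw [pt_self w, hz]
    apply plane_fill (r1 := quarter 0 (τ 0)) (r2 := quarter 1 (τ 3)) (r3 := quarter 2 (τ 5))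
      (a := quarter 0 (τ 1)) (a' := quarter 1 (τ 2)) (b := quarter 2 (τ 4)) (c := quarter 3 (τ 6))
    any_goals exact quarter_ne (by decide)
    all_goals
      apply hf
      simp [cfg]

theorem prob_plane_ge {p : ℝ} (hp0 : 0 ≤ p) (hp1 : p ≤ 1) :
    1 - (1 - ((n / 4 : ℕ) : ℝ) ^ 7 * (p ^ 4 * (1 - p) ^ (n ^ 2 - 4))) ^ (n ^ m) ≤
      prob p (fun A : Finset (V (m + 2) n) => OpenSub 3 2 A) := by
  classical
  rw [prob_eq]
  set Gz : (Fin m → Fin n) → Finset (Finset (V (m + 2) n)) := fun z =>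
    (univ : Finset (Fin 7 → Fin (n / 4))).image (cfg z) with hGz
  set q : ℝ := ((n / 4 : ℕ) : ℝ) ^ 7 * (p ^ 4 * (1 - p) ^ (n ^ 2 - 4)) with hq
  have hqz : ∀ z : Fin m → Fin n,
      Ex p (plane z) (fun B => 1 - (if B ∈ Gz z then (1 : ℝ) else 0)) = 1 - q := by
    intro z
    have h1 : Ex p (plane z) (fun B => (if B ∈ Gz z then (1 : ℝ) else 0)) = q := by
      have h2 : ∀ B ⊆ plane z, (if B ∈ Gz z then (1 : ℝ) else 0) =
          ∑ T ∈ Gz z, (if B = T then (1 : ℝ) else 0) := by
        intro B _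
        rw [Finset.sum_ite_eq]
      rw [Ex_congr h2, Ex_sum]
      have h3 : ∀ T ∈ Gz z, Ex p (plane z) (fun B => if B = T then (1 : ℝ) else 0) =
          p ^ 4 * (1 - p) ^ (n ^ 2 - 4) := by
        intro T hT
        simp only [hGz, mem_image, mem_univ, true_and] at hT
        obtain ⟨τ, rfl⟩ := hT
        rw [Ex_eq_exact p (cfg_subset z τ), cfg_card, plane_card]
      rw [Finset.sum_congr rfl h3, Finset.sum_const, nsmul_eq_mul, hq]
      congr 1
      simp only [hGz]
      rw [Finset.card_image_of_injective _ (cfg_inj z)]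
      simp
    have h2 : Ex p (plane z) (fun B => 1 - (if B ∈ Gz z then (1 : ℝ) else 0)) =
        Ex p (plane z) (fun B => (fun _ => 1) B + (-1) * (if B ∈ Gz z then (1 : ℝ) else 0)) := by
      congr 1; funext B; ring
    rw [h2, Ex_add, Ex_const, Ex_mul, h1]
    ring
  have hblocks := Ex_blocks p (univ : Finset (V (m + 2) n)) (univ : Finset (Fin m → Fin n))
    plane (fun z _ => Finset.subset_univ _) (fun z _ z' _ h => plane_disj h)
    (fun z B => 1 - (if B ∈ Gz z then (1 : ℝ) else 0))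
  have hprod : ∏ z : Fin m → Fin n,
      Ex p (plane z) (fun B => 1 - (if B ∈ Gz z then (1 : ℝ) else 0)) = (1 - q) ^ (n ^ m) := by
    rw [Finset.prod_congr rfl (fun z _ => hqz z), Finset.prod_const]
    congr 1
    simp
  rw [hprod] at hblocks
  have h4 : (1 : ℝ) ≤ Ex p univ (fun A : Finset (V (m + 2) n) =>
      (if OpenSub 3 2 A then (1 : ℝ) else 0) +
      ∏ z : Fin m → Fin n, (1 - (if A ∩ plane z ∈ Gz z then (1 : ℝ) else 0))) := by
    refine le_trans (le_of_eq (Ex_const p (univ : Finset (V (m + 2) n)) 1).symm) ?_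
    apply Ex_mono hp0 hp1
    intro A _
    have hfac : ∀ z : Fin m → Fin n, 0 ≤ (1 - (if A ∩ plane z ∈ Gz z then (1 : ℝ) else 0)) := by
      intro z; split_ifs <;> norm_num
    by_cases hO : OpenSub 3 2 A
    · rw [if_pos hO]
      have := Finset.prod_nonneg (fun z (_ : z ∈ (univ : Finset (Fin m → Fin n))) => hfac z)
      linarith
    · rw [if_neg hO, zero_add]
      rw [Finset.prod_eq_one]
      intro z _
      rw [if_neg, sub_zero]
      intro hmem
      simp only [hGz, mem_image, mem_univ, true_and] at hmem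
      obtain ⟨τ, hτ⟩ := hmem
      apply hO
      apply open_of_cfg (z := z) (τ := τ)
      rw [hτ]
      exact Finset.inter_subset_left
  rw [Ex_add, hblocks] at h4
  linarith

end Pool.Agent.H77BP
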