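import Mathlib
import Pool.Agent.H77BP.Plane

/-!
Thresholds exist and are unique.
-/

open Finset

namespace Pool.Agent.H77BP

theorem Ex_strict {α : Type*} [DecidableEq α] {p q : ℝ} (hp0 : 0 ≤ p) (hpq : p < q) (hq1 : q ≤ 1)
    (X : Finset α) (f : Finset α → ℝ) (hf : ∀ A B, A ⊆ B → f A ≤ f B) (hlt : f ∅ < f X) :
    Ex p X f < Ex q X f := by
  induction X using Finset.induction_on generalizing f with
  | empty => exact absurd hlt (lt_irrefl _)
  | insert a X ha ih =>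
    rw [Ex_insert p ha, Ex_insert q ha]
    have hf' : ∀ A B, A ⊆ B → f (insert a A) ≤ f (insert a B) := fun A B hAB =>
      hf _ _ (Finset.insert_subset_insert a hAB)
    have hB := Ex_mono_p hp0 hpq.le hq1 X (fun A => f (insert a A)) hf'
    have hAB : Ex q X f ≤ Ex q X (fun A => f (insert a A)) :=
      Ex_mono (hp0.trans hpq.le) hq1 fun A _ => hf _ _ (Finset.subset_insert _ _)
    have hp1 : 0 < 1 - p := by linarith
    by_cases h : f ∅ < f X
    · have hA := ih f hf h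
      calc (1 - p) * Ex p X f + p * Ex p X (fun A => f (insert a A))
          < (1 - p) * Ex q X f + p * Ex q X (fun A => f (insert a A)) := by
            have h1 := mul_lt_mul_of_pos_left hA hp1
            have h2 := mul_le_mul_of_nonneg_left hB hp0
            linarith
        _ ≤ (1 - q) * Ex q X f + q * Ex q X (fun A => f (insert a A)) := by nlinarith
    · push Not at h
      have hc : ∀ A ⊆ X, f A = f ∅ := fun A hA =>
        le_antisymm ((hf A X hA).trans h) (hf ∅ A (Finset.empty_subset _))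
      have hAp : Ex p X f = f ∅ := by rw [Ex_congr hc, Ex_const]
      have hAq : Ex q X f = f ∅ := by rw [Ex_congr hc, Ex_const]
      have hq0 : 0 < q := lt_of_le_of_lt hp0 hpq
      have hBq : f ∅ < Ex q X (fun A => f (insert a A)) := by
        have h1 : Ex q X (fun A => (fun _ => f ∅) A +
            (f (insert a X) - f ∅) * (if X ⊆ A then (1 : ℝ) else 0)) ≤
            Ex q X (fun A => f (insert a A)) := by
          apply Ex_mono hq0.le hq1
          intro A hA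
          split_ifs with hXA
          · have : A = X := Finset.Subset.antisymm hA hXA
            rw [this]; simp
          · have := hf ∅ (insert a A) (Finset.empty_subset _)
            simp; linarith
        rw [Ex_add, Ex_const, Ex_mul, Ex_eq_top] at h1
        have h2 : 0 < (f (insert a X) - f ∅) * q ^ X.card :=
          mul_pos (by linarith) (by positivity)
        linarith
      rw [hAp, hAq]
      have h3 := mul_le_mul_of_nonneg_left hB hp0
      nlinarith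

theorem Ex_zero {α : Type*} [DecidableEq α] (X : Finset α) (f : Finset α → ℝ) :
    Ex 0 X f = f ∅ := by
  induction X using Finset.induction_on generalizing f with
  | empty => rw [Ex_empty]
  | insert a X ha ih => rw [Ex_insert 0 ha, ih]; ring

theorem Ex_one {α : Type*} [DecidableEq α] (X : Finset α) (f : Finset α → ℝ) :
    Ex 1 X f = f X := by
  induction X using Finset.induction_on generalizing f with
  | empty => rw [Ex_empty]
  | insert a X ha ih => rw [Ex_insert 1 ha, ih (fun A => f (insert a A))]; ring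

open Classical in
/-- indicator of the event -/
noncomputable def ind (d n θ i : ℕ) (A : Finset (V d n)) : ℝ :=
  if OpenSub θ i A then 1 else 0

theorem ind_mono (d n θ i : ℕ) (A B : Finset (V d n)) (h : A ⊆ B) :
    ind d n θ i A ≤ ind d n θ i B := by
  unfold ind
  by_cases h1 : OpenSub θ i A
  · rw [if_pos h1, if_pos (OpenSub_mono h h1)]
  · rw [if_neg h1]; split_ifs <;> norm_num

theorem prob_ind (d n θ i : ℕ) (p : ℝ) :
    prob p (fun A : Finset (V d n) => OpenSub θ i A) = Ex p univ (ind d n θ i) := by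
  classical
  rw [prob_eq]
  unfold ind
  congr 1

theorem Final_empty {d n θ : ℕ} (hθ : 0 < θ) {v : V d n} : ¬ Final θ ∅ v := by
  intro h
  have hc : Closed θ (∅ : Finset (V d n)) := by
    intro w hw
    simp at hw
    omega
  have := Final_subset_closed (Finset.Subset.refl _) hc h
  simp at this

theorem ind_empty (d n θ i : ℕ) (hθ : 0 < θ) : ind d n θ i ∅ = 0 := by
  unfold ind
  rw [if_neg]
  rintro ⟨I, b, _, hb⟩
  exact Final_empty hθ (hb b (fun _ _ => rfl))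

theorem ind_univ (d n θ i : ℕ) (hn : 0 < n) (hi : i ≤ d) : ind d n θ i univ = 1 := by
  unfold ind
  rw [if_pos]
  obtain ⟨I, hI⟩ : ∃ I : Finset (Fin d), I.card = i := by
    have : i ≤ (univ : Finset (Fin d)).card := by simpa using hi
    obtain ⟨I, _, hI⟩ := Finset.exists_subset_card_eq this
    exact ⟨I, hI⟩
  exact ⟨I, fun _ => ⟨0, hn⟩, hI, fun w _ => Final_of_mem (mem_univ w)⟩

theorem threshold_exists_unique {d n θ i : ℕ} (hθ : 0 < θ) (hn : 0 < n) (hi : i ≤ d) :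
    ∃! p : ℝ, IsThreshold d n θ i p := by
  have hcont : Continuous (fun p => Ex p univ (ind d n θ i)) := Ex_continuous _ _
  have h0 : Ex 0 univ (ind d n θ i) = 0 := by rw [Ex_zero, ind_empty d n θ i hθ]
  have h1 : Ex 1 univ (ind d n θ i) = 1 := by rw [Ex_one, ind_univ d n θ i hn hi]
  have hiv := intermediate_value_Icc (show (0 : ℝ) ≤ 1 by norm_num) hcont.continuousOn
  have hmem : (1 / 2 : ℝ) ∈ Set.Icc (Ex 0 univ (ind d n θ i)) (Ex 1 univ (ind d n θ i)) := by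
    rw [h0, h1]; constructor <;> norm_num
  obtain ⟨p, ⟨hp0, hp1⟩, hp⟩ := hiv hmem
  refine ⟨p, ⟨hp0, hp1, by rw [prob_ind]; exact hp⟩, ?_⟩
  rintro q ⟨hq0, hq1, hq⟩
  rw [prob_ind] at hq
  have hlt : ind d n θ i ∅ < ind d n θ i univ := by
    rw [ind_empty d n θ i hθ, ind_univ d n θ i hn hi]; norm_num
  have hp' : Ex p univ (ind d n θ i) = 1 / 2 := hp
  rcases lt_trichotomy p q with h | h | h
  · have := Ex_strict hp0 h hq1 univ _ (ind_mono d n θ i) hlt
    rw [hp', hq] at this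
    exact absurd this (lt_irrefl _)
  · exact h.symm
  · have := Ex_strict hq0 h hp1 univ _ (ind_mono d n θ i) hlt
    rw [hp', hq] at this
    exact absurd this (lt_irrefl _)

theorem threshold_lt {d n θ i : ℕ} {p x : ℝ} (hp : IsThreshold d n θ i p) (hx0 : 0 ≤ x)
    (hx : 1 / 2 < prob x (fun A : Finset (V d n) => OpenSub θ i A)) : p < x := by
  obtain ⟨hp0, hp1, hp2⟩ := hp
  by_contra hcon
  push Not at hcon
  have := Ex_mono_p hx0 hcon hp1 univ _ (ind_mono d n θ i)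
  rw [← prob_ind, ← prob_ind] at this
  linarith

theorem threshold_gt {d n θ i : ℕ} {p x : ℝ} (hp : IsThreshold d n θ i p) (hx1 : x ≤ 1)
    (hx : prob x (fun A : Finset (V d n) => OpenSub θ i A) < 1 / 2) : x < p := by
  obtain ⟨hp0, hp1, hp2⟩ := hp
  by_contra hcon
  push Not at hcon
  have := Ex_mono_p hp0 hcon hx1 univ _ (ind_mono d n θ i)
  rw [← prob_ind, ← prob_ind] at this
  linarith

/-- in dimension `484`, the whole graph is not open at `p = n ^ (-121)` -/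
theorem whole_small {n : ℕ} (hn : 2 ^ 1940 ≤ n) :
    prob (((n : ℝ) ^ 121)⁻¹) (fun A : Finset (V 484 n) => OpenSub 3 484 A) < 1 / 2 := by
  have hn0 : 0 < n := lt_of_lt_of_le (by positivity) hn
  have hnr : (0 : ℝ) < n := by exact_mod_cast hn0
  have hn1 : (1 : ℝ) ≤ n := by exact_mod_cast hn0
  have hnr' : (2 : ℝ) ^ 1940 ≤ n := by exact_mod_cast hn
  have hp0 : 0 ≤ ((n : ℝ) ^ 121)⁻¹ := by positivity
  have hp1 : ((n : ℝ) ^ 121)⁻¹ ≤ 1 := inv_le_one_of_one_le₀ (one_le_pow₀ hn1)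
  refine lt_of_le_of_lt (prob_full_le (by norm_num) hn0 hp0 hp1) ?_
  have e1 : ((n ^ 484 * (2 ^ 484 * n ^ 30) ^ 4 : ℕ) : ℝ) * (((n : ℝ) ^ 121)⁻¹) ^ 5 =
      (2 : ℝ) ^ 1936 * (n : ℝ)⁻¹ := by
    have a1 : ((n ^ 484 * (2 ^ 484 * n ^ 30) ^ 4 : ℕ) : ℝ) = (2 : ℝ) ^ 1936 * (n : ℝ) ^ 604 := by
      push_cast
      rw [mul_pow, ← pow_mul, ← pow_mul, mul_left_comm, ← pow_add]
    have a2 : (((n : ℝ) ^ 121)⁻¹) ^ 5 = ((n : ℝ) ^ 604)⁻¹ * (n : ℝ)⁻¹ := by
      rw [inv_pow, ← pow_mul, ← mul_inv, ← pow_succ]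
    rw [a1, a2]
    have a3 : (n : ℝ) ^ 604 ≠ 0 := by positivity
    rw [mul_assoc, ← mul_assoc ((n : ℝ) ^ 604), mul_inv_cancel₀ a3, one_mul]
  have e2 : ((2 ^ 484 * n ^ 14 : ℕ) : ℝ) * ((n : ℝ) ^ 121)⁻¹ ≤ (2 : ℝ) ^ 1936 * (n : ℝ)⁻¹ := by
    push_cast
    have a1 : (n : ℝ) ^ 14 * ((n : ℝ) ^ 121)⁻¹ ≤ (n : ℝ)⁻¹ := by
      rw [← div_eq_mul_inv, ← one_div, div_le_div_iff₀ (by positivity) hnr, one_mul, ← pow_succ]
      exact pow_le_pow_right₀ hn1 (by norm_num)
    rw [mul_assoc]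
    exact mul_le_mul (pow_le_pow_right₀ (by norm_num) (by norm_num)) a1 (by positivity)
      (by positivity)
  have e3 : (2 : ℝ) ^ 1936 * (n : ℝ)⁻¹ ≤ 1 / 16 := by
    rw [← div_eq_mul_inv, div_le_iff₀ hnr]
    have : (2 : ℝ) ^ 1940 = 2 ^ 1936 * 16 := by
      rw [show (16 : ℝ) = 2 ^ 4 by norm_num, ← pow_add]
    rw [this] at hnr'
    linarith
  rw [e1]
  linarith

theorem plane_num {n : ℕ} (hn0 : 0 < n) (hnr' : (8388608 : ℝ) ≤ n) (p q : ℝ)
    (hp : p = ((n : ℝ) ^ 122)⁻¹) (hp0 : 0 ≤ p) (hp1 : p ≤ 1)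
    (hq : q = ((n / 4 : ℕ) : ℝ) ^ 7 * (p ^ 4 * (1 - p) ^ (n ^ 2 - 4))) :
    1 / 2 < 1 - (1 - q) ^ (n ^ 482) := by
  have hnr : (0 : ℝ) < n := by exact_mod_cast hn0
  have hn1 : (1 : ℝ) ≤ n := by exact_mod_cast hn0
  have hk : (n : ℝ) / 8 ≤ ((n / 4 : ℕ) : ℝ) := by
    have h1 : n < 4 * (n / 4 + 1) := by omega
    have h2 : (n : ℝ) < 4 * (((n / 4 : ℕ) : ℝ) + 1) := by exact_mod_cast h1
    have h3 : (8 : ℝ) ≤ n := by linarith
    linarith
  have hbern : 1 / 2 ≤ (1 - p) ^ (n ^ 2 - 4) := by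
    have h1 := one_add_mul_le_pow (show (-2 : ℝ) ≤ -p by linarith) (n ^ 2 - 4)
    have h2 : ((n ^ 2 - 4 : ℕ) : ℝ) * p ≤ 1 / 2 := by
      have h3 : ((n ^ 2 - 4 : ℕ) : ℝ) ≤ (n : ℝ) ^ 2 := by
        have : n ^ 2 - 4 ≤ n ^ 2 := Nat.sub_le _ _
        exact_mod_cast this
      calc ((n ^ 2 - 4 : ℕ) : ℝ) * p ≤ (n : ℝ) ^ 2 * p := by gcongr
        _ ≤ (n : ℝ)⁻¹ := by
          rw [hp, ← div_eq_mul_inv, ← one_div, div_le_div_iff₀ (by positivity) hnr, one_mul,
            ← pow_succ]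
          exact pow_le_pow_right₀ hn1 (by norm_num)
        _ ≤ 1 / 2 := by
          rw [inv_le_comm₀ hnr (by norm_num)]
          have : ((1 : ℝ) / 2)⁻¹ = 2 := by norm_num
          rw [this]
          linarith
    have h3 : (1 + -p) = 1 - p := by ring
    rw [h3] at h1
    have h4 : ((n ^ 2 - 4 : ℕ) : ℝ) * -p = -(((n ^ 2 - 4 : ℕ) : ℝ) * p) := by ring
    rw [h4] at h1
    linarith
  have hpow1 : (1 - p) ^ (n ^ 2 - 4) ≤ 1 := pow_le_one₀ (by linarith) (by linarith)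
  have hqN : (n : ℝ) / 2 ^ 22 ≤ q * ((n ^ 482 : ℕ) : ℝ) := by
    have h1 : ((n : ℝ) / 8) ^ 7 * (p ^ 4 * (1 / 2)) ≤ q := by
      rw [hq]; gcongr
    have h2 : ((n : ℝ) / 8) ^ 7 * (p ^ 4 * (1 / 2)) * ((n ^ 482 : ℕ) : ℝ) = n / 2 ^ 22 := by
      push_cast
      have a1 : p ^ 4 = ((n : ℝ) ^ 488)⁻¹ := by rw [hp, inv_pow, ← pow_mul]
      have a2 : (n : ℝ) ^ 488 ≠ 0 := by positivity
      have a3 : (n : ℝ) ^ 7 * (n : ℝ) ^ 482 = (n : ℝ) ^ 488 * n := by
        rw [← pow_add, ← pow_succ]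
      rw [a1, div_pow]
      calc (n : ℝ) ^ 7 / 8 ^ 7 * (((n : ℝ) ^ 488)⁻¹ * (1 / 2)) * (n : ℝ) ^ 482
          = ((n : ℝ) ^ 7 * (n : ℝ) ^ 482) * ((n : ℝ) ^ 488)⁻¹ * (1 / (2 * 8 ^ 7)) := by
            rw [div_eq_mul_inv]; ring
        _ = n * ((n : ℝ) ^ 488 * ((n : ℝ) ^ 488)⁻¹) * (1 / (2 * 8 ^ 7)) := by rw [a3]; ring
        _ = n / 2 ^ 22 := by rw [mul_inv_cancel₀ a2]; norm_num; ring
    rw [← h2]
    gcongr
  have hq0 : 0 ≤ q := by
    rw [hq]
    have : 0 ≤ 1 - p := by linarith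
    positivity
  have hq1 : q ≤ 1 := by
    have h1 : ((n / 4 : ℕ) : ℝ) ≤ n := by exact_mod_cast Nat.div_le_self n 4
    calc q ≤ (n : ℝ) ^ 7 * (p ^ 4 * 1) := by rw [hq]; gcongr
      _ ≤ 1 := by
        rw [mul_one]
        have a1 : p ^ 4 = ((n : ℝ) ^ 488)⁻¹ := by rw [hp, inv_pow, ← pow_mul]
        rw [a1, ← div_eq_mul_inv, div_le_one (by positivity)]
        exact pow_le_pow_right₀ hn1 (by norm_num)
  have hexp : (1 - q) ^ (n ^ 482) ≤ Real.exp (-1) := by
    calc (1 - q) ^ (n ^ 482) ≤ (Real.exp (-q)) ^ (n ^ 482) := by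
          apply pow_le_pow_left₀ (by linarith)
          have := Real.add_one_le_exp (-q)
          linarith
      _ = Real.exp (-(q * ((n ^ 482 : ℕ) : ℝ))) := by
          rw [← Real.exp_nat_mul]; congr 1; ring
      _ ≤ Real.exp (-1) := by
          apply Real.exp_le_exp.mpr
          have : (1 : ℝ) ≤ n / 2 ^ 22 := by
            rw [le_div_iff₀ (by norm_num)]
            have : (1 : ℝ) * 2 ^ 22 = 4194304 := by norm_num
            rw [this]
            linarith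
          linarith
  have hlast : Real.exp (-1) < 1 / 2 := by
    rw [Real.exp_neg, inv_lt_comm₀ (Real.exp_pos _) (by norm_num)]
    have := Real.exp_one_gt_d9
    norm_num
    linarith
  linarith

/-- in dimension `484`, some plane is open at `p = n ^ (-122)` -/
theorem plane_large {n : ℕ} (hn : 2 ^ 23 ≤ n) :
    1 / 2 < prob (((n : ℝ) ^ 122)⁻¹) (fun A : Finset (V 484 n) => OpenSub 3 2 A) := by
  have hn0 : 0 < n := lt_of_lt_of_le (by positivity) hn
  have hn1 : (1 : ℝ) ≤ n := by exact_mod_cast hn0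
  have hnr' : (8388608 : ℝ) ≤ n := by
    have : (8388608 : ℕ) ≤ n := le_trans (by norm_num) hn
    exact_mod_cast this
  clear hn
  have hp0 : (0 : ℝ) ≤ ((n : ℝ) ^ 122)⁻¹ := inv_nonneg.mpr (pow_nonneg (by linarith) _)
  have hp1 : ((n : ℝ) ^ 122)⁻¹ ≤ 1 := inv_le_one_of_one_le₀ (one_le_pow₀ hn1)
  exact lt_of_lt_of_le (plane_num hn0 hnr' _ _ rfl hp0 hp1 rfl)
    (prob_plane_ge (m := 482) (n := n) hp0 hp1)

end Pool.Agent.H77BP
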